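import Pool.Agent.Helper52.EK.Defs

/-!
# CKC: the area integral against the integral along the centre line
-/

set_option autoImplicit false
open Complex MeasureTheory Metric Set Filter Topology
open scoped Real ComplexConjugate Interval

namespace Pool.Agent.Helper77.CKC

open Pool.Agent.Helper52.EK

theorem pt_mem {x₁ x₂ ξ η : ℝ} (hξ : ξ ∈ Icc x₁ x₂) (hη : η ∈ Icc (0:ℝ) π) :
    pt ξ η ∈ Rect x₁ x₂ := by
  refine ⟨?_, ?_⟩
  · simp only [mem_preimage]
    have : (pt ξ η).re = ξ := by simp [pt]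
    rw [this]
    exact hξ
  · simp only [mem_preimage]
    have : (pt ξ η).im = η := by simp [pt]
    rw [this]
    exact hη

theorem le_sin {η : ℝ} (h0 : 0 ≤ η) (h1 : η ≤ π / 2) : η ≤ π / 2 * Real.sin η := by
  have h2 := Real.mul_le_sin h0 h1
  have hpi := Real.pi_pos
  have h3 : π / 2 * (2 / π * η) = η := by field_simp
  have h4 := mul_le_mul_of_nonneg_left h2 (by positivity : 0 ≤ π / 2)
  linarith

/-- Cauchy on the rectangle -/
theorem rect {X : ℂ → ℂ} {x₁ x₂ : ℝ} (hX : AnalyticOnNhd ℂ X (Rect x₁ x₂)) (hx : x₁ ≤ x₂) {η : ℝ}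
    (hη : η ∈ Icc (0:ℝ) π) :
    (∫ ξ in x₁..x₂, X (pt ξ η)) = (∫ ξ in x₁..x₂, X (pt ξ (π / 2))) +
      I * ∫ y in (π / 2)..η, (X (pt x₂ y) - X (pt x₁ y)) := by
  have hpi := Real.pi_pos
  have hc2 : π / 2 ∈ Icc (0:ℝ) π := ⟨by positivity, by linarith⟩
  have hd : DifferentiableOn ℂ X (Rect x₁ x₂) := hX.differentiableOn
  have hsub : [[(pt x₁ (π / 2)).re, (pt x₂ η).re]] ×ℂ [[(pt x₁ (π / 2)).im, (pt x₂ η).im]] ⊆
      Rect x₁ x₂ := by
    have e1 : (pt x₁ (π / 2)).re = x₁ := by simp [pt]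
    have e2 : (pt x₂ η).re = x₂ := by simp [pt]
    have e3 : (pt x₁ (π / 2)).im = π / 2 := by simp [pt]
    have e4 : (pt x₂ η).im = η := by simp [pt]
    rw [e1, e2, e3, e4, uIcc_of_le hx]
    intro z hz
    refine ⟨hz.1, ?_⟩
    have h1 := hz.2
    simp only [mem_preimage] at h1 ⊢
    exact (uIcc_subset_Icc hc2 hη) h1
  have h1 := Complex.integral_boundary_rect_eq_zero_of_differentiableOn X (pt x₁ (π / 2)) (pt x₂ η)
    (hd.mono hsub)
  have e1 : (pt x₁ (π / 2)).re = x₁ := by simp [pt]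
  have e2 : (pt x₂ η).re = x₂ := by simp [pt]
  have e3 : (pt x₁ (π / 2)).im = π / 2 := by simp [pt]
  have e4 : (pt x₂ η).im = η := by simp [pt]
  rw [e1, e2, e3, e4] at h1
  have h2 : (∫ ξ in x₁..x₂, X (pt ξ (π / 2))) - (∫ ξ in x₁..x₂, X (pt ξ η)) +
      I * (∫ y in (π / 2)..η, X (pt x₂ y)) - I * (∫ y in (π / 2)..η, X (pt x₁ y)) = 0 := h1
  have hcX : ∀ x ∈ Icc x₁ x₂, ContinuousOn (fun y : ℝ => X (pt x y)) (uIcc (π / 2) η) := by
    intro x hxx
    have hptc : Continuous fun y : ℝ => pt x y := by unfold pt; fun_prop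
    refine hd.continuousOn.comp hptc.continuousOn ?_
    intro y hy
    exact pt_mem hxx (uIcc_subset_Icc hc2 hη hy)
  rw [intervalIntegral.integral_sub
    (hcX x₂ (right_mem_Icc.2 hx)).intervalIntegrable
    (hcX x₁ (left_mem_Icc.2 hx)).intervalIntegrable]
  linear_combination -h2

/-- the double integral against the centre line -/
theorem area_line {X : ℂ → ℂ} {x₁ x₂ B : ℝ} (hx : x₁ ≤ x₂)
    (hX : AnalyticOnNhd ℂ X (Rect x₁ x₂))
    (hB : ∀ ξ ∈ Icc x₁ x₂, ∀ η ∈ Icc (0:ℝ) π, Real.sin η * ‖X (pt ξ η)‖ ≤ B) :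
    ‖(∫ η in (0:ℝ)..π, ∫ ξ in x₁..x₂, X (pt ξ η)) - π * ∫ ξ in x₁..x₂, X (pt ξ (π / 2))‖ ≤
      π ^ 2 * B ∧
    (∫ η in (0:ℝ)..π, ∫ ξ in x₁..x₂, (X (pt ξ η)).re) =
      (∫ η in (0:ℝ)..π, ∫ ξ in x₁..x₂, X (pt ξ η)).re := by
  have hpi := Real.pi_pos
  -- the continuous extension of the difference at the two ends
  set p : ℝ → ℝ := fun y => max 0 (min y π) with hp
  have hpc : Continuous p := by fun_prop
  have hpm : ∀ y, p y ∈ Icc (0:ℝ) π := fun y =>
    ⟨le_max_left _ _, max_le hpi.le (min_le_right _ _)⟩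
  have hpe : ∀ y ∈ Icc (0:ℝ) π, p y = y := by
    intro y hy
    simp only [hp]
    rw [min_eq_left hy.2, max_eq_right hy.1]
  set D : ℝ → ℂ := fun y => X (pt x₂ (p y)) - X (pt x₁ (p y)) with hD
  have hXc : ∀ x ∈ Icc x₁ x₂, Continuous fun y : ℝ => X (pt x (p y)) := by
    intro x hxx
    have hptc : Continuous fun y : ℝ => pt x (p y) := by unfold pt; fun_prop
    exact hX.continuousOn.comp_continuous hptc fun y => pt_mem hxx (hpm y)
  have hDc : Continuous D :=
    (hXc x₂ (right_mem_Icc.2 hx)).sub (hXc x₁ (left_mem_Icc.2 hx))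
  set Q : ℝ → ℂ := fun η => ∫ y in (π / 2)..η, D y with hQ
  have hQd : ∀ η, HasDerivAt Q (D η) η := fun η =>
    intervalIntegral.integral_hasDerivAt_right (hDc.intervalIntegrable _ _)
      hDc.stronglyMeasurable.stronglyMeasurableAtFilter hDc.continuousAt
  have hQc : Continuous Q := continuous_iff_continuousAt.2 fun η => (hQd η).continuousAt
  have hDle : ∀ y ∈ Icc (0:ℝ) π, Real.sin y * ‖D y‖ ≤ 2 * B := by
    intro y hy
    have hs : 0 ≤ Real.sin y := Real.sin_nonneg_of_nonneg_of_le_pi hy.1 hy.2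
    simp only [hD]
    rw [hpe y hy]
    have h1 := hB x₂ (right_mem_Icc.2 hx) y hy
    have h2 := hB x₁ (left_mem_Icc.2 hx) y hy
    have h3 := mul_le_mul_of_nonneg_left (norm_sub_le (X (pt x₂ y)) (X (pt x₁ y))) hs
    linarith
  -- the inner integral
  have hin : ∀ η ∈ Icc (0:ℝ) π, (∫ ξ in x₁..x₂, X (pt ξ η)) =
      (∫ ξ in x₁..x₂, X (pt ξ (π / 2))) + I * Q η := by
    intro η hη
    rw [rect hX hx hη]
    congr 2
    simp only [hQ]
    refine intervalIntegral.integral_congr fun y hy => ?_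
    have hy' : y ∈ Icc (0:ℝ) π := uIcc_subset_Icc ⟨by positivity, by linarith⟩ hη hy
    simp only [hD]
    rw [hpe y hy']
  have h1 : (∫ η in (0:ℝ)..π, ∫ ξ in x₁..x₂, X (pt ξ η)) =
      ∫ η in (0:ℝ)..π, ((∫ ξ in x₁..x₂, X (pt ξ (π / 2))) + I * Q η) := by
    refine intervalIntegral.integral_congr fun η hη => ?_
    rw [uIcc_of_le hpi.le] at hη
    exact hin η hη
  have hIQ : Continuous fun η : ℝ => I * Q η := continuous_const.mul hQc
  refine ⟨?_, ?_⟩
  swap
  · have hre : ∀ η ∈ Icc (0:ℝ) π, (∫ ξ in x₁..x₂, (X (pt ξ η)).re) =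
        Complex.reCLM ((∫ ξ in x₁..x₂, X (pt ξ (π / 2))) + I * Q η) := by
      intro η hη
      rw [← hin η hη]
      have hptc : Continuous fun ξ : ℝ => pt ξ η := by unfold pt; fun_prop
      have hc : ContinuousOn (fun ξ : ℝ => X (pt ξ η)) (uIcc x₁ x₂) := by
        rw [uIcc_of_le hx]
        exact hX.continuousOn.comp hptc.continuousOn fun ξ hξ => pt_mem hξ hη
      exact Complex.reCLM.intervalIntegral_comp_comm hc.intervalIntegrable
    have hcc : Continuous fun η : ℝ => (∫ ξ in x₁..x₂, X (pt ξ (π / 2))) + I * Q η :=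
      continuous_const.add hIQ
    rw [h1, ← Complex.reCLM_apply, ← Complex.reCLM.intervalIntegral_comp_comm
      (hcc.intervalIntegrable _ _)]
    refine intervalIntegral.integral_congr fun η hη => ?_
    rw [uIcc_of_le hpi.le] at hη
    exact hre η hη
  rw [h1, intervalIntegral.integral_add intervalIntegrable_const
    (hIQ.intervalIntegrable _ _), intervalIntegral.integral_const,
    intervalIntegral.integral_const_mul]
  have h2 : ((π - 0) • (∫ ξ in x₁..x₂, X (pt ξ (π / 2))) + I * ∫ η in (0:ℝ)..π, Q η) -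
      π * ∫ ξ in x₁..x₂, X (pt ξ (π / 2)) = I * ∫ η in (0:ℝ)..π, Q η := by
    rw [Complex.real_smul, sub_zero]
    ring
  rw [h2, norm_mul, Complex.norm_I, one_mul]
  -- integration by parts on the two halves
  have hQ2 : Q (π / 2) = 0 := by
    simp only [hQ]
    exact intervalIntegral.integral_same
  have hpart : ∀ c u v : ℝ, (∫ η in u..v, Q η) = ((v - c : ℝ) : ℂ) * Q v - ((u - c : ℝ) : ℂ) * Q u -
      ∫ η in u..v, ((η - c : ℝ) : ℂ) * D η := by
    intro c u v
    have h3 := intervalIntegral.integral_mul_deriv_eq_deriv_mul (a := u) (b := v)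
      (u := fun η : ℝ => ((η - c : ℝ) : ℂ)) (v := Q) (u' := fun _ => 1) (v' := D)
      (fun η _ => by
        have := ((hasDerivAt_id η).sub_const c).ofReal_comp
        simpa using this)
      (fun η _ => hQd η) intervalIntegrable_const (hDc.intervalIntegrable _ _)
    simp only [one_mul] at h3
    rw [h3]
    ring
  have hsplit : (∫ η in (0:ℝ)..π, Q η) = (∫ η in (0:ℝ)..(π / 2), Q η) + ∫ η in (π / 2)..π, Q η :=
    (intervalIntegral.integral_add_adjacent_intervals (hQc.intervalIntegrable _ _)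
      (hQc.intervalIntegrable _ _)).symm
  have hI1 : (∫ η in (0:ℝ)..(π / 2), Q η) = -∫ η in (0:ℝ)..(π / 2), ((η - 0 : ℝ) : ℂ) * D η := by
    rw [hpart 0 0 (π / 2), hQ2]
    simp
  have hI2 : (∫ η in (π / 2)..π, Q η) = -∫ η in (π / 2)..π, ((η - π : ℝ) : ℂ) * D η := by
    rw [hpart π (π / 2) π, hQ2]
    simp
  have hb1 : ‖∫ η in (0:ℝ)..(π / 2), ((η - 0 : ℝ) : ℂ) * D η‖ ≤ (π * B) * |π / 2 - 0| := by
    refine intervalIntegral.norm_integral_le_of_norm_le_const ?_
    intro η hη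
    rw [uIoc_of_le (by positivity)] at hη
    have hη' : η ∈ Icc (0:ℝ) π := ⟨hη.1.le, by linarith [hη.2]⟩
    rw [norm_mul, Complex.norm_real, Real.norm_eq_abs, sub_zero, abs_of_pos hη.1]
    have h3 := le_sin hη.1.le hη.2
    have h4 := hDle η hη'
    have h5 := mul_le_mul_of_nonneg_right h3 (norm_nonneg (D η))
    nlinarith
  have hb2 : ‖∫ η in (π / 2)..π, ((η - π : ℝ) : ℂ) * D η‖ ≤ (π * B) * |π - π / 2| := by
    refine intervalIntegral.norm_integral_le_of_norm_le_const ?_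
    intro η hη
    rw [uIoc_of_le (by linarith)] at hη
    have hη' : η ∈ Icc (0:ℝ) π := ⟨by linarith [hη.1], hη.2⟩
    rw [norm_mul, Complex.norm_real, Real.norm_eq_abs, abs_of_nonpos (by linarith [hη.2])]
    have h3 := le_sin (η := π - η) (by linarith [hη.2]) (by linarith [hη.1])
    rw [Real.sin_pi_sub] at h3
    have h4 := hDle η hη'
    have h5 := mul_le_mul_of_nonneg_right h3 (norm_nonneg (D η))
    nlinarith
  have ha1 : |π / 2 - 0| = π / 2 := by rw [sub_zero, abs_of_pos (by positivity)]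
  have ha2 : |π - π / 2| = π / 2 := by
    rw [abs_of_nonneg (by linarith)]
    ring
  rw [ha1] at hb1
  rw [ha2] at hb2
  rw [hsplit, hI1, hI2]
  refine (norm_add_le _ _).trans ?_
  rw [norm_neg, norm_neg]
  have h6 : π ^ 2 * B = π * B * (π / 2) + π * B * (π / 2) := by ring
  rw [h6]
  exact add_le_add hb1 hb2

end Pool.Agent.Helper77.CKC
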