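import Pool.Agent.Helper79.EK3.Lin
import Pool.Agent.Helper69.CKC.KOneCd
import Pool.Agent.Helper77.CK.Class
import Pool.Agent.Helper77.CKC.AreaLine

/-!
# CKC: the linear term, complex directions
-/

set_option autoImplicit false
open Complex MeasureTheory Metric Set Filter Topology
open scoped Real ComplexConjugate

namespace Pool.Agent.Helper77.CKC

open Pool.Agent.Helper39.Area Pool.Agent.Helper39.EK Pool.Agent.Helper52.EK
open Pool.Agent.Helper86.EK Pool.Agent.Helper68.EKC Pool.Agent.Helper79.EK3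

/-- the function `Φ` with its complex value at the target -/
theorem exists_Phi_C {β L : ℂ → ℂ} (h : Ext β) (hL : IsLog β L) {a : ℝ} (ha : 0 < a)
    (ha1 : a < 1) :
    ∃ Φ Φ' : ℂ → ℂ, (∀ ω : ℂ, 0 < ω.im → ω.im < π → HasDerivAt Φ (Φ' ω) ω) ∧
      (∀ ω : ℂ, 0 < ω.im → ω.im < π → ‖Φ' ω‖ * Real.sin ω.im ≤ Real.sqrt (2 * JJ β a)) ∧
      (∀ ω : ℂ, 0 < ω.im → ω.im < π → Real.log (tau a) < ω.re → ω.re < 0 →
        Φ' ω = 2 * Xf β a ω - 2 * kap a ω) ∧
      Φ (pt (Real.log (tau a)) (π / 2)) = ((-Real.log (1 - a ^ 2) : ℝ) : ℂ) + L a ∧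
      Φ (pt 0 (π / 2)) = 0 := by
  have haC : ((a:ℝ):ℂ) ∈ ball (0:ℂ) 1 := by
    rw [mem_ball, dist_zero_right, Complex.norm_real, Real.norm_of_nonneg ha.le]
    exact ha1
  have ha0 : ((a:ℝ):ℂ) ≠ 0 := by exact_mod_cast ha.ne'
  obtain ⟨F, hF0, hF, hexp⟩ := exists_log h haC
  have hFL : L a = F a := branch_eq h hL.cont hL.zero hL.exp haC
    (fun z hz => (hF z hz).continuousAt.continuousWithinAt) hF0 hexp
  have hre : ∀ z ∈ ball (0:ℂ) 1, 0 < (1 - (a:ℂ) * z).re := by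
    intro z hz
    rw [mem_ball, dist_zero_right] at hz
    have h1 : ((a:ℂ) * z).re ≤ ‖(a:ℂ) * z‖ := Complex.re_le_norm _
    rw [norm_mul, Complex.norm_real, Real.norm_of_nonneg ha.le] at h1
    rw [Complex.sub_re, Complex.one_re]
    nlinarith [norm_nonneg z]
  have hsl : ∀ z ∈ ball (0:ℂ) 1, (1 - (a:ℂ) * z) ∈ slitPlane := fun z hz => Or.inl (hre z hz)
  set D : ℂ → ℂ := fun z => F z - Complex.log (1 - (a:ℂ) * z) with hD
  set D' : ℂ → ℂ := fun z => deriv F z + (a:ℂ) / (1 - (a:ℂ) * z) with hD'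
  have hder : ∀ z ∈ ball (0:ℂ) 1, HasDerivAt D (D' z) z := by
    intro z hz
    have h1 : HasDerivAt (fun z : ℂ => 1 - (a:ℂ) * z) (-(a:ℂ)) z := by
      have := ((hasDerivAt_id z).const_mul (a:ℂ)).const_sub 1
      simpa using this
    have h2 := h1.clog (hsl z hz)
    have h3 := (hF z hz).sub h2
    have h4 : D' z = deriv (qq β a) z / qq β a z - -(a:ℂ) / (1 - (a:ℂ) * z) := by
      simp only [hD']
      rw [(hF z hz).deriv]
      ring
    rw [h4]
    exact h3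
  have hDd : DifferentiableOn ℂ D (ball 0 1) := fun z hz =>
    (hder z hz).differentiableAt.differentiableWithinAt
  have hJ : - Real.log (1 - ‖((a:ℝ):ℂ)‖ ^ 2) + (F a).re = JJ β a := by
    have h5 : ‖N β (a:ℂ)‖ = Real.exp (F a).re := by
      rw [← qq_self, ← hexp _ haC, Complex.norm_exp]
    have h6 : (0:ℝ) < 1 - a ^ 2 := by nlinarith
    rw [JJ, h5, Real.log_div (Real.exp_pos _).ne' h6.ne', Real.log_exp, Complex.norm_real,
      Real.norm_of_nonneg ha.le]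
    ring
  have hen : ∀ ρ : ℝ, 0 < ρ → ρ < 1 → ∫ z in ball (0:ℂ) ρ, ‖deriv D z‖ ^ 2 ≤ 2 * π * JJ β a := by
    intro ρ h0 h1
    have h2 := energy h h0 h1 haC ha0 hF hF0 hexp
    rw [hJ] at h2
    refine le_trans (le_of_eq ?_) h2
    apply setIntegral_congr_fun measurableSet_ball
    intro z hz
    simp only
    rw [(hder z (ball_subset_ball h1.le hz)).deriv, hD', Complex.conj_ofReal]
  have hz1 : ∀ ω : ℂ, 0 < ω.im → ω.im < π → zf ω ∈ ball (0:ℂ) 1 := by
    intro ω h0 h1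
    rw [mem_ball, dist_zero_right]
    exact norm_zf_lt (exp_im_pos h0 h1)
  refine ⟨fun ω => D (zf ω), fun ω => D' (zf ω) * zd ω, ?_, ?_, ?_, ?_, ?_⟩
  · intro ω h0 h1
    exact (hder _ (hz1 ω h0 h1)).comp ω (hasDerivAt_zf (exp_ne_neg_I' h0 h1))
  · intro ω h0 h1
    have h2 := hz1 ω h0 h1
    have h3 : ‖zf ω‖ < 1 := by simpa using h2
    have h4 := bloch hDd hen h3
    rw [(hder _ h2).deriv] at h4
    have h5 := norm_zd h0 h1
    have hs : 0 < Real.sin ω.im := Real.sin_pos_of_pos_of_lt_pi h0 h1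
    simp only
    rw [norm_mul]
    have h6 : ‖zd ω‖ * Real.sin ω.im = (1 - ‖zf ω‖) * (1 + ‖zf ω‖) / 2 := by
      linear_combination (1 / 2) * h5
    calc ‖D' (zf ω)‖ * ‖zd ω‖ * Real.sin ω.im = ‖D' (zf ω)‖ * (‖zd ω‖ * Real.sin ω.im) := by ring
      _ = (‖D' (zf ω)‖ * (1 - ‖zf ω‖)) * ((1 + ‖zf ω‖) / 2) := by rw [h6]; ring
      _ ≤ (‖D' (zf ω)‖ * (1 - ‖zf ω‖)) * 1 := by
          apply mul_le_mul_of_nonneg_left (by linarith)
          exact mul_nonneg (norm_nonneg _) (by linarith)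
      _ ≤ _ := by rw [mul_one]; exact h4
  · intro ω h0 h1 h2 h3
    have hR : ω ∈ Rect ω.re ω.re := ⟨⟨le_refl _, le_refl _⟩, ⟨h0.le, h1.le⟩⟩
    have hzb := hz1 ω h0 h1
    have hz0 : zf ω ≠ 0 := zf_ne_zero h3 hR
    have hza : zf ω ≠ a := zf_ne_a ha ha1 h2 hR
    rw [← zd_Dd ha ha1 h2 h3 hR, Dd, dphi_div h haC hzb ha0 hz0 hza, hD']
    simp only
    rw [(hF _ hzb).deriv]
    ring
  · have h1 : zf (pt (Real.log (tau a)) (π / 2)) = a := by
      have h2 : Complex.exp (pt (Real.log (tau a)) (π / 2)) = (tau a : ℂ) * I := by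
        rw [pt, Complex.exp_add, ← Complex.ofReal_exp, Real.exp_log (tau_pos ha ha1)]
        congr 1
        push_cast
        exact Complex.exp_pi_div_two_mul_I
      rw [zf, h2, tau]
      have h3 : (1 + (a:ℂ)) ≠ 0 := by
        have : ((1 + a : ℝ) : ℂ) ≠ 0 := by exact_mod_cast (by positivity)
        simpa using this
      have h4 : (I:ℂ) ≠ 0 := I_ne_zero
      push_cast
      have h5 : I + (1 - (a:ℂ)) / (1 + a) * I = 2 / (1 + a) * I := by field_simp; ring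
      have h6 : I - (1 - (a:ℂ)) / (1 + a) * I = 2 * a / (1 + a) * I := by field_simp; ring
      rw [h5, h6]
      field_simp
    simp only [h1]
    rw [hFL, hD]
    simp only
    have h7 : (1 - (a:ℂ) * a) = ((1 - a ^ 2 : ℝ) : ℂ) := by push_cast; ring
    rw [h7, ← Complex.ofReal_log (by nlinarith)]
    push_cast
    ring
  · have h1 : zf (pt 0 (π / 2)) = 0 := by
      have h2 : Complex.exp (pt 0 (π / 2)) = I := by
        rw [pt]
        push_cast
        rw [zero_add]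
        exact Complex.exp_pi_div_two_mul_I
      rw [zf, h2, sub_self, zero_div]
    simp only [h1]
    rw [hD]
    simp [hF0]

theorem kap_norm {a : ℝ} (h0 : 0 < a) (h1 : a < 1) {ξ η : ℝ} (hx : Real.log (tau a) + 1 ≤ ξ)
    (hx2 : ξ ≤ -1) :
    ‖kap a (pt ξ η) - 1‖ ≤
      12 * Real.exp (ξ / 2) + 4 * Real.exp ((Real.log (tau a) - ξ) / 2) := by
  have h3 := Pool.Agent.Helper46.EK.kap_bound h0 h1 (η := η) hx hx2
  have hτ := tau_pos h0 h1
  apply le_of_sq_le_sq _ (by positivity)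
  have e1 : Real.exp (ξ / 2) ^ 2 = Real.exp ξ := by
    rw [← Real.exp_nat_mul]; congr 1; push_cast; ring
  have e2 : Real.exp ((Real.log (tau a) - ξ) / 2) ^ 2 = tau a * Real.exp (-ξ) := by
    rw [← Real.exp_nat_mul]
    have : ((2:ℕ):ℝ) * ((Real.log (tau a) - ξ) / 2) = Real.log (tau a) + -ξ := by push_cast; ring
    rw [this, Real.exp_add, Real.exp_log hτ]
  have p1 := Real.exp_pos (ξ / 2)
  have p2 := Real.exp_pos ((Real.log (tau a) - ξ) / 2)
  nlinarith [mul_pos p1 p2]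

/-- the centre line, complex form -/
theorem centre_C {β L : ℂ → ℂ} {R : ℝ} (h : ExtR β R) (hL : IsLog β L) {a : ℝ} (ha : 0 < a)
    (ha1 : a < 1) (hx : Real.log (tau a) + 1 ≤ -1) :
    ‖(2 * ∫ ξ in (Real.log (tau a) + 1)..(-1), (1 - Xf β a (pt ξ (π / 2)))) -
      (((-Real.log (1 - a ^ 2) : ℝ) : ℂ) + L a)‖ ≤ 100 + 2 * Real.sqrt (2 * JJ β a) := by
  have hπ := Real.pi_pos
  obtain ⟨Φ, Φ', hd, hb, hX, hJ, hO⟩ := exists_Phi_C h.toExt hL ha ha1
  obtain ⟨x₁, hx₁⟩ : ∃ x₁, x₁ = Real.log (tau a) + 1 := ⟨_, rfl⟩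
  rw [← hx₁] at hx ⊢
  have h12 : x₁ ≤ -1 := hx
  have hN := Pool.Agent.Helper67.EK.E1c h ha ha1 (x₁ := x₁) (x₂ := -1) (by linarith) (by norm_num)
  have hmem : ∀ ξ ∈ Icc x₁ (-1), pt ξ (π / 2) ∈ Rect x₁ (-1) := fun ξ hξ =>
    pt_mem hξ ⟨by positivity, by linarith⟩
  have hptc : Continuous fun ξ : ℝ => pt ξ (π / 2) := by unfold pt; fun_prop
  have hXc : ContinuousOn (fun ξ : ℝ => Xf β a (pt ξ (π / 2))) (Icc x₁ (-1)) :=
    hN.an.continuousOn.comp hptc.continuousOn hmem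
  have hkc : ContinuousOn (fun ξ : ℝ => kap a (pt ξ (π / 2))) (Icc x₁ (-1)) := by
    have hk : ContinuousOn (kap a) (Rect x₁ (-1)) := by
      apply ContinuousOn.div (by fun_prop) (by fun_prop)
      intro ω hω
      exact mul_ne_zero (sq_add_tau_ne ha ha1 (by linarith) hω)
        (sq_add_one_ne (by norm_num) hω)
    exact hk.comp hptc.continuousOn hmem
  have hXi : IntervalIntegrable (fun ξ : ℝ => Xf β a (pt ξ (π / 2))) volume x₁ (-1) := by
    apply ContinuousOn.intervalIntegrable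
    rw [uIcc_of_le h12]
    exact hXc
  have hki : IntervalIntegrable (fun ξ : ℝ => kap a (pt ξ (π / 2))) volume x₁ (-1) := by
    apply ContinuousOn.intervalIntegrable
    rw [uIcc_of_le h12]
    exact hkc
  -- fundamental theorem of calculus
  have hft : ∫ ξ in x₁..(-1), (2 * Xf β a (pt ξ (π / 2)) - 2 * kap a (pt ξ (π / 2))) =
      Φ (pt (-1) (π / 2)) - Φ (pt x₁ (π / 2)) := by
    apply intervalIntegral.integral_eq_sub_of_hasDerivAt (f := fun ξ => Φ (pt ξ (π / 2)))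
    · intro ξ hξ
      rw [uIcc_of_le h12] at hξ
      have i1 : 0 < (pt ξ (π / 2)).im := by rw [pt_im]; linarith
      have i2 : (pt ξ (π / 2)).im < π := by rw [pt_im]; linarith
      have h3 := (hd _ i1 i2).comp_of_eq ξ (hasDerivAt_pt ξ (π / 2)) rfl
      rw [mul_one, hX _ i1 i2 (by rw [pt_re]; linarith [hξ.1]) (by rw [pt_re]; linarith [hξ.2])]
        at h3
      exact h3
    · exact (hXi.const_mul 2).sub (hki.const_mul 2)
  have hend2 := horiz hd hb 0 (-1)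
  rw [hO, sub_zero, sub_zero] at hend2
  have hend1 := horiz hd hb (Real.log (tau a)) x₁
  have e1 : |x₁ - Real.log (tau a)| = 1 := by
    rw [hx₁, add_sub_cancel_left, abs_one]
  have e2 : |(-1:ℝ)| = 1 := by norm_num
  rw [e1, mul_one, hJ] at hend1
  rw [e2, mul_one] at hend2
  have hkap : ‖2 * ∫ ξ in x₁..(-1), (1 - kap a (pt ξ (π / 2)))‖ ≤ 64 := by
    rw [norm_mul]
    have h3 : ‖∫ ξ in x₁..(-1), (1 - kap a (pt ξ (π / 2)))‖ ≤
        ∫ ξ in x₁..(-1), (12 * Real.exp (ξ / 2) + 4 * Real.exp ((Real.log (tau a) - ξ) / 2)) := by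
      refine intervalIntegral.norm_integral_le_of_norm_le h12 ?_
        ((by fun_prop : Continuous fun ξ : ℝ => 12 * Real.exp (ξ / 2) +
          4 * Real.exp ((Real.log (tau a) - ξ) / 2)).intervalIntegrable _ _)
      refine Filter.Eventually.of_forall fun ξ hξ => ?_
      rw [norm_sub_rev]
      exact kap_norm ha ha1 (by rw [← hx₁]; exact hξ.1.le) hξ.2
    have h4 := int_exp_half (x₁ := x₁) (x₂ := -1) (L := Real.log (tau a)) hx₁.ge h12 le_rfl
    have h5 : ‖(2:ℂ)‖ = 2 := by simp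
    rw [h5]
    linarith
  have hsplit : 2 * ∫ ξ in x₁..(-1), (1 - Xf β a (pt ξ (π / 2))) =
      2 * (∫ ξ in x₁..(-1), (1 - kap a (pt ξ (π / 2)))) -
        ∫ ξ in x₁..(-1), (2 * Xf β a (pt ξ (π / 2)) - 2 * kap a (pt ξ (π / 2))) := by
    rw [← intervalIntegral.integral_const_mul, ← intervalIntegral.integral_const_mul,
      ← intervalIntegral.integral_sub ((intervalIntegrable_const.sub hki).const_mul 2)
        ((hXi.const_mul 2).sub (hki.const_mul 2))]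
    congr 1
    funext ξ
    ring
  rw [hsplit, hft]
  obtain ⟨T, hT⟩ : ∃ T, T = ((-Real.log (1 - a ^ 2) : ℝ) : ℂ) + L a := ⟨_, rfl⟩
  rw [← hT] at hend1 ⊢
  have e3 : 2 * (∫ ξ in x₁..(-1), (1 - kap a (pt ξ (π / 2)))) -
      (Φ (pt (-1) (π / 2)) - Φ (pt x₁ (π / 2))) - T =
      2 * (∫ ξ in x₁..(-1), (1 - kap a (pt ξ (π / 2)))) +
        (-Φ (pt (-1) (π / 2)) + (Φ (pt x₁ (π / 2)) - T)) := by ring
  rw [e3]
  refine (norm_add_le _ _).trans ?_
  have h6 := norm_add_le (-Φ (pt (-1) (π / 2))) (Φ (pt x₁ (π / 2)) - T)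
  rw [norm_neg] at h6
  linarith

theorem log_tau {a : ℝ} (ha : 0 < a) (ha1 : a < 1) :
    -Real.log (tau a) - 2 ≤ -Real.log (1 - a ^ 2) ∧
      -Real.log (1 - a ^ 2) ≤ -Real.log (tau a) := by
  have h1 : 0 < 1 - a := by linarith
  have h2 : 0 < 1 + a := by linarith
  have e : 1 - a ^ 2 = (1 - a) * (1 + a) := by ring
  have e2 : Real.log (tau a) = Real.log (1 - a) - Real.log (1 + a) := by
    rw [tau, Real.log_div h1.ne' h2.ne']
  have e3 : Real.log (1 - a ^ 2) = Real.log (1 - a) + Real.log (1 + a) := by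
    rw [e, Real.log_mul h1.ne' h2.ne']
  have h3 : 0 ≤ Real.log (1 + a) := Real.log_nonneg (by linarith)
  have h4 : Real.log (1 + a) ≤ a := by
    have := Real.log_le_sub_one_of_pos h2
    linarith
  constructor <;> rw [e2, e3] <;> linarith

theorem JJ_le {β : ℂ → ℂ} (h : Ext β) {a : ℝ} (ha : 0 < a) (ha1 : a < 1) :
    JJ β a ≤ 2 * -Real.log (1 - a ^ 2) := by
  have hn : ‖((a:ℝ):ℂ)‖ = a := by rw [Complex.norm_real, Real.norm_of_nonneg ha.le]
  have h1 := Pool.Agent.Helper77.CK.N_bounds h (z := (a:ℂ)) (by rw [hn]; exact ha1)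
  rw [hn] at h1
  have h2 : (0:ℝ) < 1 - a ^ 2 := by nlinarith
  have h3 : 0 < ‖N β a‖ := by
    unfold N
    linarith [h1.1]
  have h4 : ‖N β a‖ ≤ 1 / (1 - a ^ 2) := h1.2
  unfold JJ
  rw [Real.log_div h3.ne' h2.ne']
  have h5 := Real.log_le_log h3 h4
  rw [one_div, Real.log_inv] at h5
  linarith

/-- **the linear term in the direction `u`** -/
theorem line_C {u : ℂ} (hu : ‖u‖ = 1) : Pool.Agent.Helper69.CKC.LineC u := by
  intro g hg
  refine ⟨100 * π + 20 * π ^ 2 + 2 * g + 4 * π ^ 2 / g, ?_⟩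
  intro β L R a hβ hL hae ha1 hx
  have hpi := Real.pi_pos
  have ha : 0 < a := (Real.exp_pos _).trans hae
  have hc := centre_C hβ hL ha ha1 hx
  have hF := Pool.Agent.Helper69.CKC.discF_Xf β R a hβ ha ha1 hx
  obtain ⟨x₁, hx₁⟩ : ∃ x₁, x₁ = Real.log (tau a) + 1 := ⟨_, rfl⟩
  rw [← hx₁] at hx hc hF ⊢
  have hN := Pool.Agent.Helper67.EK.E1c hβ ha ha1 (x₁ := x₁) (x₂ := -1) (by linarith)
    (by norm_num)
  obtain ⟨X, hXX⟩ : ∃ X, X = Xf β a := ⟨_, rfl⟩
  rw [← hXX] at hc hN hF ⊢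
  set f : ℂ → ℂ := fun ω => conj u * ((1 + u) / 2 - X ω) with hf
  have hfan : AnalyticOnNhd ℂ f (Rect x₁ (-1)) :=
    analyticOnNhd_const.mul (analyticOnNhd_const.sub hN.an)
  have huc : ‖conj u‖ = 1 := by rw [RCLike.norm_conj, hu]
  have hB : ∀ ξ ∈ Icc x₁ (-1), ∀ η ∈ Icc (0:ℝ) π, Real.sin η * ‖f (pt ξ η)‖ ≤ 10 := by
    intro ξ hξ η hη
    have h1 := hF.X_le ξ hξ η hη
    have hs : 0 ≤ Real.sin η := Real.sin_nonneg_of_nonneg_of_le_pi hη.1 hη.2
    have hs1 : Real.sin η ≤ 1 := Real.sin_le_one η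
    simp only [hf]
    rw [norm_mul, huc, one_mul]
    have h2 : ‖(1 + u) / 2‖ ≤ 1 := by
      rw [norm_div]
      have h3 := norm_add_le (1:ℂ) u
      rw [norm_one, hu] at h3
      have h4 : ‖(2:ℂ)‖ = 2 := by simp
      rw [h4]
      linarith
    have h3 := norm_sub_le ((1 + u) / 2) (X (pt ξ η))
    have h4 := mul_le_mul_of_nonneg_left h3 hs
    nlinarith [norm_nonneg ((1 + u) / 2)]
  obtain ⟨hA, hre⟩ := area_line hx hfan hB
  have hII : II x₁ (-1) (fun ξ η => Pool.Agent.Helper69.CKC.fu u (X (pt ξ η))) =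
      ∫ η in (0:ℝ)..π, ∫ ξ in x₁..(-1), (f (pt ξ η)).re := by
    have hcH : Pool.Agent.Helper69.EK3.CH x₁ (-1) π
        (fun ξ η => Pool.Agent.Helper69.CKC.fu u (X (pt ξ η))) := by
      have hptc : Continuous fun p : ℝ × ℝ => pt p.1 p.2 := by unfold pt; fun_prop
      exact Complex.continuous_re.comp_continuousOn (hfan.continuousOn.comp hptc.continuousOn
        fun p hp => pt_mem hp.1 hp.2)
    exact Pool.Agent.Helper69.EK7.IH_swap hx hpi.le hcH
  rw [hII, hre]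
  have hrt := Complex.re_le_norm ((∫ η in (0:ℝ)..π, ∫ ξ in x₁..(-1), f (pt ξ η)) -
    π * ∫ ξ in x₁..(-1), f (pt ξ (π / 2)))
  rw [Complex.sub_re, Complex.re_ofReal_mul] at hrt
  -- the centre line
  have hcX : IntervalIntegrable (fun ξ : ℝ => X (pt ξ (π / 2))) volume x₁ (-1) := by
    have hptc : Continuous fun ξ : ℝ => pt ξ (π / 2) := by unfold pt; fun_prop
    apply ContinuousOn.intervalIntegrable
    rw [uIcc_of_le hx]
    exact hN.an.continuousOn.comp hptc.continuousOn fun ξ hξ =>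
      pt_mem hξ ⟨by positivity, by linarith⟩
  have hcen : 2 * ∫ ξ in x₁..(-1), f (pt ξ (π / 2)) =
      conj u * (2 * ∫ ξ in x₁..(-1), (1 - X (pt ξ (π / 2)))) +
        (1 - conj u) * ((-1 - x₁ : ℝ) : ℂ) := by
    have h1 : (∫ ξ in x₁..(-1), f (pt ξ (π / 2))) =
        conj u * (∫ ξ in x₁..(-1), (1 - X (pt ξ (π / 2)))) +
          ∫ _ in x₁..(-1), conj u * ((u - 1) / 2) := by
      rw [← intervalIntegral.integral_const_mul, ← intervalIntegral.integral_add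
        ((intervalIntegrable_const.sub hcX).const_mul _) intervalIntegrable_const]
      refine intervalIntegral.integral_congr fun ξ _ => ?_
      simp only [hf]
      ring
    rw [h1, intervalIntegral.integral_const, Complex.real_smul]
    have h2 : conj u * u = 1 := by
      rw [mul_comm, Complex.mul_conj, Complex.normSq_eq_norm_sq, hu]
      simp
    linear_combination ((-1 - x₁ : ℝ) : ℂ) * h2
  obtain ⟨S, hS⟩ : ∃ S : ℂ, S = 2 * ∫ ξ in x₁..(-1), (1 - X (pt ξ (π / 2))) := ⟨_, rfl⟩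
  obtain ⟨Fc, hFc⟩ : ∃ Fc : ℂ, Fc = ∫ ξ in x₁..(-1), f (pt ξ (π / 2)) := ⟨_, rfl⟩
  obtain ⟨A, hAd⟩ : ∃ A : ℂ, A = ∫ η in (0:ℝ)..π, ∫ ξ in x₁..(-1), f (pt ξ η) := ⟨_, rfl⟩
  rw [← hS] at hc hcen
  rw [← hFc] at hcen hrt hA
  rw [← hAd] at hrt hA ⊢
  obtain ⟨Λ, hΛ⟩ : ∃ Λ, Λ = -Real.log (1 - a ^ 2) := ⟨_, rfl⟩
  obtain ⟨s, hs⟩ : ∃ s, s = Real.sqrt (2 * JJ β a) := ⟨_, rfl⟩
  have hJ0 := JJ_nonneg hβ.toExt ha ha1
  have hJ := JJ_le hβ.toExt ha ha1
  have hs2 : s ^ 2 = 2 * JJ β a := by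
    rw [hs]
    exact Real.sq_sqrt (by linarith)
  have hs0 : 0 ≤ s := by rw [hs]; exact Real.sqrt_nonneg _
  obtain ⟨hl1, hl2⟩ := log_tau ha ha1
  rw [← hΛ] at hc hJ hl1 hl2 ⊢
  rw [← hs] at hc
  -- the real part on the centre line
  have hc2 : (conj u * (S - ((Λ : ℂ) + L a))).re ≤ 100 + 2 * s := by
    refine (Complex.re_le_norm _).trans ?_
    rw [norm_mul, huc, one_mul]
    exact hc
  have e1 : (conj u * (S - ((Λ : ℂ) + L a))).re =
      (conj u * S).re - u.re * Λ - (conj u * L a).re := by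
    have : conj u * (S - ((Λ : ℂ) + L a)) = conj u * S - conj u * (Λ : ℂ) - conj u * L a := by
      ring
    rw [this, Complex.sub_re, Complex.sub_re, Complex.re_mul_ofReal, Complex.conj_re]
  rw [e1] at hc2
  have e2 : 2 * Fc.re = (conj u * S).re + (1 - u.re) * (-1 - x₁) := by
    have h1 := congrArg Complex.re hcen
    rw [Complex.add_re, Complex.re_mul_ofReal, Complex.sub_re, Complex.one_re,
      Complex.conj_re] at h1
    have h2 : (2 * Fc).re = 2 * Fc.re := by simp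
    rw [h2] at h1
    exact h1
  have hure : u.re ≤ 1 := by
    have := Complex.re_le_norm u
    rwa [hu] at this
  have h3 : (1 - u.re) * (-1 - x₁) ≤ (1 - u.re) * Λ := by
    refine mul_le_mul_of_nonneg_left ?_ (by linarith)
    rw [hx₁]
    linarith
  have h4 : 2 * Fc.re ≤ Λ + (conj u * L a).re + 100 + 2 * s := by
    rw [e2]
    nlinarith
  have h5 : s ^ 2 ≤ 4 * (-1 - x₁) + 8 := by
    rw [hs2, hx₁]
    linarith
  have h6 : 2 * π * s ≤ g * (-1 - x₁) + 2 * g + 4 * π ^ 2 / g := by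
    have h7 : 0 ≤ (g * s / 2 - 2 * π) ^ 2 / g := by positivity
    have h8 : (g * s / 2 - 2 * π) ^ 2 / g = g * s ^ 2 / 4 - 2 * π * s + 4 * π ^ 2 / g := by
      field_simp
      ring
    rw [h8] at h7
    have h9 := mul_le_mul_of_nonneg_left h5 hg.le
    linarith
  have h7 : π * (2 * Fc.re) ≤ π * (Λ + (conj u * L a).re + 100 + 2 * s) :=
    mul_le_mul_of_nonneg_left h4 hpi.le
  have h8 : A.re ≤ π * Fc.re + π ^ 2 * 10 := by linarith
  nlinarith

end Pool.Agent.Helper77.CKC
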